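import Pool.Agent.Y698.Rng

/-!
# Valuations of the ring of integers of `ℚ(√-7)` (project KE, helper59)
-/

set_option autoImplicit false
set_option linter.all false

namespace Pool.Agent.T2h59.KE

open NumberField IsDedekindDomain WithZero
open Pool.Agent.Y698

/-- in a principal ideal domain a squarefree element has valuation `exp (-1)` at the primes
which divide it -/
theorem val_sqf {R K : Type*} [CommRing R] [IsDomain R] [IsDedekindDomain R]
    [IsPrincipalIdealRing R] [Field K] [Algebra R K] [IsFractionRing R K]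
    (v : HeightOneSpectrum R) (x : R) (hx : Squarefree x)
    (h : v.valuation K (algebraMap R K x) < 1) :
    v.valuation K (algebraMap R K x) = exp (-1 : ℤ) := by
  rw [v.valuation_of_algebraMap] at h ⊢
  have h1 : v.intValuation x ≤ exp (-((1 : ℕ) : ℤ)) := by
    rw [v.intValuation_le_pow_iff_mem, pow_one]
    exact (v.intValuation_lt_one_iff_mem x).1 h
  have hx0 : v.intValuation x ≠ 0 := by
    intro h0
    have h2 : x = 0 := by
      by_contra h3
      exact v.intValuation_ne_zero x h3 h0
    rw [h2] at hx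
    exact not_squarefree_zero hx
  have h2 : ¬ v.intValuation x ≤ exp (-((2 : ℕ) : ℤ)) := by
    rw [v.intValuation_le_pow_iff_mem]
    intro h3
    obtain ⟨π, hπ⟩ := (IsPrincipalIdealRing.principal v.asIdeal).principal
    rw [Ideal.submodule_span_eq] at hπ
    rw [hπ, Ideal.span_singleton_pow, Ideal.mem_span_singleton, pow_two] at h3
    have h4 := hx π h3
    exact v.isPrime.ne_top (by rw [hπ]; exact Ideal.span_singleton_eq_top.2 h4)
  rw [← exp_log hx0] at h1 h2 ⊢
  rw [exp_le_exp] at h1 h2
  congr 1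
  push_cast at h1 h2
  omega

theorem nR_ofNat_two : nR (2 : RR) = 4 := by
  have h := cXY_nat 2
  have h1 : ((2 : ℕ) : RR) = 2 := by norm_num
  rw [h1] at h
  unfold nR
  rw [h.1, h.2]
  norm_num

theorem isUnit_of_nR {x : RR} (h : nR x = 1) : IsUnit x := by
  refine IsUnit.of_mul_eq_one (cj x) ?_
  rw [mul_cj, h]
  norm_num

theorem two_sqf : Squarefree (2 : RR) := by
  intro x hx
  obtain ⟨y, hy⟩ := hx
  have h1 : nR x * nR x * nR y = 4 := by
    rw [← nR_mul, ← nR_mul, ← hy, nR_ofNat_two]
  have h2 := nR_nonneg x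
  have h3 := nR_nonneg y
  have h4 : nR x = 1 ∨ nR x = 2 := by
    have h5 : nR x ≤ 2 := by
      by_contra h6
      have h7 : 1 ≤ nR y := by
        by_contra h8
        have : nR y = 0 := by omega
        rw [this] at h1
        norm_num at h1
      nlinarith
    have h6 : nR x ≠ 0 := by
      intro h7
      rw [h7] at h1
      norm_num at h1
    omega
  rcases h4 with h4 | h4
  · exact isUnit_of_nR h4
  · exfalso
    have h5 : nR y = 1 := by
      rw [h4] at h1
      linarith
    have h6 : cX (x * x) ^ 2 = 4 ∧ cY (x * x) = 0 := by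
      rcases isUnit_iff.1 (isUnit_of_nR h5) with h | h
      · have h7 : x * x = ((2 : ℕ) : RR) := by
          rw [h, mul_one] at hy
          rw [← hy]
          norm_num
        rw [h7, (cXY_nat 2).1, (cXY_nat 2).2]
        norm_num
      · have h7 : x * x = -((2 : ℕ) : RR) := by
          rw [h, mul_neg, mul_one] at hy
          rw [← neg_neg (x * x), ← hy]
          norm_num
        rw [h7, (cXY_neg _).1, (cXY_neg _).2, (cXY_nat 2).1, (cXY_nat 2).2]
        norm_num
    rw [(cXY_mul x x).1, (cXY_mul x x).2] at h6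
    have h7 : cY x * (2 * cX x + cY x) = 0 := by linarith [h6.2]
    unfold nR at h4
    rcases mul_eq_zero.1 h7 with h8 | h8
    · rw [h8] at h4
      have h9 : cX x ^ 2 = 2 := by linarith
      have h10 : |cX x| < 2 := by
        rw [← sq_lt_sq₀ (abs_nonneg _) (by norm_num), sq_abs]
        linarith
      have h11 := abs_lt.1 h10
      have h12 : cX x = -1 ∨ cX x = 0 ∨ cX x = 1 := by omega
      rcases h12 with h | h | h <;> rw [h] at h9 <;> norm_num at h9
    · have h9 : cY x = -2 * cX x := by linarith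
      rw [h9] at h4
      have h10 : 7 * cX x ^ 2 = 2 := by linarith
      omega

variable {K : Type} [Field K] [NumberField K]

theorem pidK (j : RR ≃+* 𝓞 K) : IsPrincipalIdealRing (𝓞 K) :=
  IsPrincipalIdealRing.of_surjective (j : RR →+* 𝓞 K) j.surjective

theorem sqf_map (j : RR ≃+* 𝓞 K) {x : RR} (hx : Squarefree x) : Squarefree (j x) := by
  intro y hy
  have h1 := hx (j.symm y) (by
    have := map_dvd j.symm hy
    rwa [map_mul, j.symm_apply_apply] at this)
  have h2 := h1.map j
  rwa [j.apply_symm_apply] at h2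

theorem hyp0 (hfR : Prime fR) (j : RR ≃+* 𝓞 K) (t : RR) (ht : Squarefree (1 + 4 * t))
    (hc : IsCoprime fR (1 + 4 * t)) :
    algebraMap (𝓞 K) K (j aR) ^ 2 = algebraMap (𝓞 K) K (j aR) - 2 ∧
    (∀ v : HeightOneSpectrum (𝓞 K), v.valuation K 2 < 1 → v.valuation K 2 = exp (-1 : ℤ)) ∧
    (∀ v : HeightOneSpectrum (𝓞 K), v.valuation K (1 + 4 * algebraMap (𝓞 K) K (j t)) < 1 →
      v.valuation K (1 + 4 * algebraMap (𝓞 K) K (j t)) = exp (-1 : ℤ)) ∧
    ∃ v : HeightOneSpectrum (𝓞 K), v.valuation K 2 = 1 ∧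
      v.valuation K (1 + 4 * algebraMap (𝓞 K) K (j t)) = 1 ∧
      v.valuation K (2 * algebraMap (𝓞 K) K (j aR) - 1) = exp (-1 : ℤ) := by
  have := pidK j
  have e2 : (2 : K) = algebraMap (𝓞 K) K (j 2) := by rw [map_ofNat, map_ofNat]
  have et : 1 + 4 * algebraMap (𝓞 K) K (j t) = algebraMap (𝓞 K) K (j (1 + 4 * t)) := by
    rw [map_add, map_mul, map_one, map_ofNat, map_add, map_mul, map_one, map_ofNat]
  have ef : 2 * algebraMap (𝓞 K) K (j aR) - 1 = algebraMap (𝓞 K) K (j fR) := by
    unfold fR
    rw [map_sub, map_mul, map_one, map_ofNat, map_sub, map_mul, map_one, map_ofNat]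
  refine ⟨?_, ?_, ?_, ?_⟩
  · rw [← map_pow, ← map_pow, aR_sq, map_sub, map_sub, map_ofNat, map_ofNat]
  · intro v hv
    rw [e2] at hv ⊢
    exact val_sqf v _ (sqf_map j two_sqf) hv
  · intro v hv
    rw [et] at hv ⊢
    exact val_sqf v _ (sqf_map j ht) hv
  · have hjf : Prime (j fR) := (MulEquiv.prime_iff j.toMulEquiv).2 hfR
    set v : HeightOneSpectrum (𝓞 K) := ⟨Ideal.span {j fR},
      (Ideal.span_singleton_prime hjf.ne_zero).2 hjf, by
        rw [Ne, Ideal.span_singleton_eq_bot]
        exact hjf.ne_zero⟩ with hv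
    have hmem : ∀ x : RR, v.valuation K (algebraMap (𝓞 K) K (j x)) < 1 ↔ fR ∣ x := by
      intro x
      rw [v.valuation_of_algebraMap, v.intValuation_lt_one_iff_mem]
      show j x ∈ Ideal.span {j fR} ↔ _
      rw [Ideal.mem_span_singleton]
      exact map_dvd_iff j
    have hone : ∀ x : RR, IsCoprime fR x → v.valuation K (algebraMap (𝓞 K) K (j x)) = 1 := by
      intro x hx
      refine le_antisymm ?_ (not_lt.1 fun h => ?_)
      · rw [v.valuation_of_algebraMap]
        exact v.intValuation_le_one _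
      · exact hfR.not_isUnit (hx.isUnit_of_dvd' dvd_rfl ((hmem x).1 h))
    refine ⟨v, ?_, ?_, ?_⟩
    · rw [e2]
      refine hone 2 ⟨fR, 4, ?_⟩
      rw [← pow_two, fR_sq]
      norm_num
    · rw [et]
      exact hone _ hc
    · rw [ef]
      exact val_sqf v _ (sqf_map j hfR.squarefree) ((hmem fR).2 dvd_rfl)

end Pool.Agent.T2h59.KE
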