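import Pool.Agent.Y698.Rng

/-!
# The ring of integers of `ℚ(√-7)` (project KE, helper59)
-/

set_option autoImplicit false
set_option linter.all false

namespace Pool.Agent.T2h59.KE

open NumberField
open Pool.Agent.Y698

section

variable {K : Type} [Field K] [NumberField K] {δ : K}

theorem sq_rat_ne (x : ℚ) : x ^ 2 ≠ -7 := by
  intro h
  nlinarith [sq_nonneg x]

theorem li (hδ : δ ^ 2 = -7) : LinearIndependent ℚ ![(1 : K), δ] := by
  rw [LinearIndependent.pair_iff]
  intro s t h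
  rw [Algebra.smul_def, Algebra.smul_def, mul_one] at h
  have ht : t = 0 := by
    by_contra ht
    apply sq_rat_ne (s / t)
    have ht' : (algebraMap ℚ K t) ≠ 0 := fun h0 => ht ((map_eq_zero _).1 h0)
    have h1 : δ = algebraMap ℚ K (-(s / t)) := by
      rw [map_neg, map_div₀]
      field_simp
      linear_combination h
    have h2 : algebraMap ℚ K ((s / t) ^ 2) = algebraMap ℚ K (-7) := by
      rw [h1] at hδ
      rw [map_neg, neg_sq] at hδ
      rw [map_pow, hδ, map_neg]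
      simp
    exact (algebraMap ℚ K).injective h2
  refine ⟨?_, ht⟩
  rw [ht, map_zero, zero_mul, add_zero] at h
  exact (map_eq_zero _).1 h

/-- the basis -/
noncomputable def bs (hδ : δ ^ 2 = -7) (hK : Module.finrank ℚ K = 2) : Module.Basis (Fin 2) ℚ K :=
  basisOfLinearIndependentOfCardEqFinrank (li hδ) (by rw [hK]; rfl)

theorem bs_apply (hδ : δ ^ 2 = -7) (hK : Module.finrank ℚ K = 2) (i : Fin 2) :
    bs hδ hK i = ![(1 : K), δ] i := by
  unfold bs
  rw [coe_basisOfLinearIndependentOfCardEqFinrank]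

theorem repr_uv (hδ : δ ^ 2 = -7) (hK : Module.finrank ℚ K = 2) (u v : ℚ) (i : Fin 2) :
    (bs hδ hK).repr ((u : K) + (v : K) * δ) i = ![u, v] i := by
  have h1 : (u : K) + (v : K) * δ = u • bs hδ hK 0 + v • bs hδ hK 1 := by
    rw [bs_apply, bs_apply, Rat.smul_def, Rat.smul_def]
    simp
  rw [h1, map_add, map_smul, map_smul, Module.Basis.repr_self, Module.Basis.repr_self]
  fin_cases i <;> simp

theorem exists_uv (hδ : δ ^ 2 = -7) (hK : Module.finrank ℚ K = 2) (x : K) :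
    ∃ u v : ℚ, x = (u : K) + (v : K) * δ := by
  refine ⟨(bs hδ hK).repr x 0, (bs hδ hK).repr x 1, ?_⟩
  have h1 := (bs hδ hK).sum_repr x
  rw [Fin.sum_univ_two, bs_apply, bs_apply, Rat.smul_def, Rat.smul_def] at h1
  simpa using h1.symm

theorem lm (hδ : δ ^ 2 = -7) (hK : Module.finrank ℚ K = 2) (u v : ℚ) :
    Algebra.leftMulMatrix (bs hδ hK) ((u : K) + (v : K) * δ) = !![u, -7 * v; v, u] := by
  ext i k
  rw [Algebra.leftMulMatrix_eq_repr_mul, bs_apply]
  fin_cases k
  · simp only [Fin.zero_eta, Fin.isValue, Matrix.cons_val_zero, mul_one]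
    rw [repr_uv]
    fin_cases i <;> simp
  · simp only [Fin.mk_one, Fin.isValue, Matrix.cons_val_one]
    have h1 : ((u : K) + (v : K) * δ) * δ = ((-7 * v : ℚ) : K) + (u : K) * δ := by
      push_cast
      linear_combination (v : K) * hδ
    simp only [Matrix.cons_val_fin_one]
    rw [h1, repr_uv]
    fin_cases i <;> simp

theorem tr_uv (hδ : δ ^ 2 = -7) (hK : Module.finrank ℚ K = 2) (u v : ℚ) :
    Algebra.trace ℚ K ((u : K) + (v : K) * δ) = 2 * u := by
  rw [Algebra.trace_eq_matrix_trace (bs hδ hK), lm, Matrix.trace_fin_two]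
  simp
  ring

theorem nm_uv (hδ : δ ^ 2 = -7) (hK : Module.finrank ℚ K = 2) (u v : ℚ) :
    Algebra.norm ℚ ((u : K) + (v : K) * δ) = u ^ 2 + 7 * v ^ 2 := by
  rw [Algebra.norm_eq_matrix_det (bs hδ hK), lm, Matrix.det_fin_two]
  simp
  ring

theorem rat_of_int {q : ℚ} (h : IsIntegral ℤ q) : ∃ m : ℤ, (m : ℚ) = q := by
  obtain ⟨m, hm⟩ := IsIntegrallyClosed.isIntegral_iff.1 h
  exact ⟨m, by simpa using hm⟩

theorem int_uv (hδ : δ ^ 2 = -7) (hK : Module.finrank ℚ K = 2) (u v : ℚ)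
    (h : IsIntegral ℤ ((u : K) + (v : K) * δ)) :
    ∃ a b : ℤ, (u : K) + (v : K) * δ = a + b * ((1 + δ) / 2) := by
  obtain ⟨m, hm⟩ := rat_of_int (Algebra.isIntegral_trace (L := ℚ) h)
  obtain ⟨k, hk⟩ := rat_of_int (Algebra.isIntegral_norm ℚ h)
  rw [tr_uv hδ hK] at hm
  rw [nm_uv hδ hK] at hk
  -- `7 (2 v) ^ 2` is an integer
  have h1 : (7 * (2 * v)) ^ 2 = ((7 * (4 * k - m ^ 2) : ℤ) : ℚ) := by
    push_cast
    rw [hm, hk]
    ring
  have h2 : IsIntegral ℤ ((7 * (2 * v)) ^ 2) := by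
    rw [h1]
    exact isIntegral_algebraMap (R := ℤ) (A := ℚ)
  obtain ⟨r, hr⟩ := rat_of_int (IsIntegral.of_pow (n := 2) (by norm_num) h2)
  rw [← hr] at h1
  have h3 : r ^ 2 = 7 * (4 * k - m ^ 2) := by exact_mod_cast h1
  obtain ⟨s, hs⟩ : (7 : ℤ) ∣ r := by
    have hp : Prime (7 : ℤ) := by norm_num
    exact hp.dvd_of_dvd_pow ⟨_, h3⟩
  have hs' : (s : ℚ) = 2 * v := by
    rw [hs] at hr
    push_cast at hr
    linarith
  have h4 : 7 * s ^ 2 = 4 * k - m ^ 2 := by
    rw [hs] at h3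
    nlinarith
  obtain ⟨t, ht⟩ : (2 : ℤ) ∣ m - s := by
    have h5 : (2 : ℤ) ∣ (m - s) ^ 2 := ⟨2 * k - 3 * s ^ 2 - m * s, by linarith⟩
    exact (Int.prime_two).dvd_of_dvd_pow h5
  refine ⟨t, s, ?_⟩
  have hu : (u : K) = ((m : ℤ) : K) / 2 := by
    have : u = (m : ℚ) / 2 := by linarith
    rw [this]
    push_cast
    rfl
  have hv : (v : K) = ((s : ℤ) : K) / 2 := by
    have : v = (s : ℚ) / 2 := by linarith
    rw [this]
    push_cast
    rfl
  have hms : (m : K) = s + 2 * t := by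
    have : m = s + 2 * t := by linarith
    rw [this]
    push_cast
    ring
  rw [hu, hv, hms]
  ring

theorem jex0 (hδ : δ ^ 2 = -7) (hK : Module.finrank ℚ K = 2) :
    (∃ j : RR ≃+* 𝓞 K, (j fR : K) = δ ∧ ∀ z : RR, Algebra.norm ℤ (j z) = nR z) ∧
      discr K = -7 := by
  have h0 : ((1 + δ) / 2) ^ 2 = (1 + δ) / 2 - 2 := by
    linear_combination (1 / 4 : K) * hδ
  have hint : IsIntegral ℤ ((1 + δ) / 2) := by
    refine ⟨Polynomial.X ^ 2 - Polynomial.X + 2, ?_, ?_⟩
    · monicity!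
    · simp only [Polynomial.eval₂_add, Polynomial.eval₂_sub, Polynomial.eval₂_pow,
        Polynomial.eval₂_X, Polynomial.eval₂_ofNat]
      linear_combination h0
  set α : 𝓞 K := ⟨(1 + δ) / 2, hint⟩ with hα
  have hαc : algebraMap (𝓞 K) K α = (1 + δ) / 2 := rfl
  have hα2 : α ^ 2 = α - 2 := by
    apply RingOfIntegers.ext
    show algebraMap (𝓞 K) K (α ^ 2) = algebraMap (𝓞 K) K (α - 2)
    rw [map_pow, map_sub, map_ofNat, hαc]
    exact h0
  have hev : ∀ z : RR, algebraMap (𝓞 K) K (ev α hα2 z) = ((cX z : ℚ) + (cY z : ℚ) / 2 : ℚ) +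
      (((cY z : ℚ) / 2 : ℚ) : K) * δ := by
    intro z
    rw [ev_apply, map_add, map_mul, map_intCast, map_intCast, hαc]
    push_cast
    ring
  have hsurj : ∀ x : 𝓞 K, ∃ a b : ℤ, x = a + b * α := by
    intro x
    obtain ⟨u, v, huv⟩ := exists_uv hδ hK (x : K)
    have h1 : IsIntegral ℤ ((u : K) + (v : K) * δ) := by
      rw [← huv]
      exact x.2
    obtain ⟨a, b, hab⟩ := int_uv hδ hK u v h1
    refine ⟨a, b, ?_⟩
    apply RingOfIntegers.ext
    show algebraMap (𝓞 K) K x = algebraMap (𝓞 K) K (a + b * α)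
    rw [map_add, map_mul, map_intCast, map_intCast, hαc, ← hab]
    exact huv
  have hinj : Function.Injective (ev α hα2) := by
    rw [injective_iff_map_eq_zero]
    intro z h
    have h1 : ev α hα2 (z * cj z) = 0 := by rw [map_mul, h, zero_mul]
    rw [mul_cj, map_intCast] at h1
    have h3 : nR z = 0 := by exact_mod_cast h1
    exact nR_eq_zero.1 h3
  have hbij : Function.Bijective (ev α hα2) := by
    refine ⟨hinj, fun x => ?_⟩
    obtain ⟨a, b, hab⟩ := hsurj x
    refine ⟨(a : RR) + b * aR, ?_⟩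
    rw [map_add, map_mul, map_intCast, map_intCast, ev_aR, hab]
  refine ⟨⟨RingEquiv.ofBijective _ hbij, ?_, fun z => ?_⟩, ?_⟩
  · have h1 : (RingEquiv.ofBijective _ hbij fR : 𝓞 K) = 2 * α - 1 := by
      show ev α hα2 fR = _
      unfold fR
      rw [map_sub, map_mul, map_one, map_ofNat, ev_aR]
    rw [h1]
    show algebraMap (𝓞 K) K (2 * α - 1) = δ
    rw [map_sub, map_mul, map_one, map_ofNat, hαc]
    ring
  · have h1 : ((Algebra.norm ℤ (RingEquiv.ofBijective _ hbij z : 𝓞 K) : ℤ) : ℚ) = (nR z : ℚ) := by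
      rw [Algebra.coe_norm_int]
      show Algebra.norm ℚ (algebraMap (𝓞 K) K (ev α hα2 z)) = _
      rw [hev z, nm_uv hδ hK]
      unfold nR
      push_cast
      ring
    exact_mod_cast h1
  · have hli : LinearIndependent ℤ ![(1 : 𝓞 K), α] := by
      rw [LinearIndependent.pair_iff]
      intro s t h
      rw [zsmul_eq_mul, zsmul_eq_mul, mul_one] at h
      have h1 : ev α hα2 ((s : RR) + t * aR) = 0 := by
        rw [map_add, map_mul, map_intCast, map_intCast, ev_aR, h]
      have h2 : (s : RR) + t * aR = 0 := hinj (by rw [h1, map_zero])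
      have h3 := cXY_add (s : RR) (t * aR)
      rw [(cXY_mul (t : RR) aR).1, (cXY_mul (t : RR) aR).2, (cXY_int s).1, (cXY_int s).2,
        (cXY_int t).1, (cXY_int t).2, cXY_aR.1, cXY_aR.2, h2, cXY_zero.1, cXY_zero.2] at h3
      constructor
      · linarith [h3.1]
      · linarith [h3.2]
    have hsp : ⊤ ≤ Submodule.span ℤ (Set.range ![(1 : 𝓞 K), α]) := by
      intro x _
      obtain ⟨a, b, hab⟩ := hsurj x
      rw [hab]
      refine Submodule.add_mem _ ?_ ?_
      · have : ((a : ℤ) : 𝓞 K) = a • (1 : 𝓞 K) := by rw [zsmul_eq_mul, mul_one]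
        rw [this]
        exact Submodule.smul_mem _ _ (Submodule.subset_span ⟨0, rfl⟩)
      · have : (b : 𝓞 K) * α = b • α := by rw [zsmul_eq_mul]
        rw [this]
        exact Submodule.smul_mem _ _ (Submodule.subset_span ⟨1, rfl⟩)
    set B : Module.Basis (Fin 2) ℤ (𝓞 K) := Module.Basis.mk hli hsp with hB
    have hB0 : B 0 = 1 := by rw [hB, Module.Basis.mk_apply]; rfl
    have hB1 : B 1 = α := by rw [hB, Module.Basis.mk_apply]; rfl
    rw [← discr_eq_discr K B]
    have htr : ∀ (x : 𝓞 K) (u v : ℚ) (n : ℤ), algebraMap (𝓞 K) K x = (u : K) + (v : K) * δ →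
        2 * u = n →
        Algebra.trace ℤ (𝓞 K) x = n := by
      intro x u v n hx hn
      have h1 : ((Algebra.trace ℤ (𝓞 K) x : ℤ) : ℚ) = (n : ℚ) := by
        rw [Algebra.coe_trace_int]
        show Algebra.trace ℚ K (algebraMap (𝓞 K) K x) = _
        rw [hx, tr_uv hδ hK, hn]
      exact_mod_cast h1
    have t1 : Algebra.trace ℤ (𝓞 K) (1 * 1) = 2 := by
      refine htr _ 1 0 2 ?_ (by norm_num)
      rw [map_mul, map_one]
      push_cast
      ring
    have t2 : Algebra.trace ℤ (𝓞 K) (1 * α) = 1 := by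
      refine htr _ (1 / 2) (1 / 2) 1 ?_ (by norm_num)
      rw [map_mul, map_one, hαc]
      push_cast
      ring
    have t3 : Algebra.trace ℤ (𝓞 K) (α * 1) = 1 := by
      rw [mul_comm]
      exact t2
    have t4 : Algebra.trace ℤ (𝓞 K) (α * α) = -3 := by
      refine htr _ (-3 / 2) (1 / 2) (-3) ?_ (by norm_num)
      rw [← pow_two, hα2, map_sub, map_ofNat, hαc]
      push_cast
      ring
    rw [Algebra.discr_def, Matrix.det_fin_two]
    simp only [Algebra.traceMatrix_apply, Algebra.traceForm_apply, hB0, hB1, t1, t2, t3, t4]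
    norm_num

end

end Pool.Agent.T2h59.KE
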