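import Pool.Agent.T2h16.KE.Stm
import Pool.Agent.Y698.Ld
import Pool.Agent.Y577.LU.L1

/-!
# Task PERK (project KE, helper59)
-/

set_option autoImplicit false
set_option linter.all false

open scoped Classical PeriodPair

namespace Pool.Agent.T2h59.KE

open Finset Filter
open Pool.Agent.Y698 Pool.Agent.T2h16.KE Pool.Agent.TH936.CM Pool.Agent.TH936.PU Pool.Agent.W192.HK

/-- scaling of the Eisenstein series -/
theorem scale_G {L M : PeriodPair} {c : ℂ} (hc : c ≠ 0)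
    (h : ∀ z : ℂ, z ∈ M.lattice ↔ c * z ∈ L.lattice) (n : ℕ) : M.G n = c ^ n * L.G n := by
  let E : M.lattice ≃ L.lattice :=
    { toFun := fun l => ⟨c * l, (h l).1 l.2⟩
      invFun := fun l => ⟨c⁻¹ * l, (h _).2 (by rw [mul_inv_cancel_left₀ hc]; exact l.2)⟩
      left_inv := fun l => by ext; simp [hc]
      right_inv := fun l => by ext; simp [hc] }
  rw [PeriodPair.G, PeriodPair.G, ← E.tsum_eq, ← tsum_mul_left]
  refine tsum_congr fun l => ?_
  have : ((E l : L.lattice) : ℂ) = c * l := rfl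
  rw [this, mul_pow, mul_inv, ← mul_assoc, mul_inv_cancel₀ (pow_ne_zero n hc), one_mul]

theorem rep_zero {x y : ℤ} (h : (x : ℂ) + y * al = 0) : x = 0 ∧ y = 0 := by
  have h1 : (x : ℂ) + y * al = ((0 : ℤ) : ℂ) + ((0 : ℤ) : ℂ) * al := by
    rw [h]
    push_cast
    ring
  exact co_uniq h1

/-- the area of a period parallelogram -/
theorem areaR {L : PeriodPair} {Ω : ℂ} (hL : IsLat L RR Ω) :
    2 * |((starRingEnd ℂ) L.ω₁ * L.ω₂).im| = Real.sqrt 7 * ‖Ω‖ ^ 2 := by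
  obtain ⟨a, ha⟩ := (hL.mem _).1 L.ω₁_mem_lattice
  obtain ⟨b, hb⟩ := (hL.mem _).1 L.ω₂_mem_lattice
  obtain ⟨a₁, a₂, ha'⟩ := (mem_RR _).1 a.2
  obtain ⟨b₁, b₂, hb'⟩ := (mem_RR _).1 b.2
  have h1 : Ω ∈ L.lattice := (hL.mem _).2 ⟨1, by push_cast; ring⟩
  have h2 : Ω * al ∈ L.lattice := (hL.mem _).2 ⟨aR, rfl⟩
  rw [PeriodPair.mem_lattice] at h1 h2
  obtain ⟨m, n, h1⟩ := h1
  obtain ⟨k, l, h2⟩ := h2
  rw [ha, hb, ha', hb'] at h1 h2
  have e1 : ((m * a₁ + n * b₁ - 1 : ℤ) : ℂ) + ((m * a₂ + n * b₂ : ℤ) : ℂ) * al = 0 := by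
    have : Ω * (((m * a₁ + n * b₁ - 1 : ℤ) : ℂ) + ((m * a₂ + n * b₂ : ℤ) : ℂ) * al) = 0 := by
      push_cast
      linear_combination h1
    exact (mul_eq_zero.1 this).resolve_left hL.ne
  have e2 : ((k * a₁ + l * b₁ : ℤ) : ℂ) + ((k * a₂ + l * b₂ - 1 : ℤ) : ℂ) * al = 0 := by
    have : Ω * (((k * a₁ + l * b₁ : ℤ) : ℂ) + ((k * a₂ + l * b₂ - 1 : ℤ) : ℂ) * al) = 0 := by
      push_cast
      linear_combination h2
    exact (mul_eq_zero.1 this).resolve_left hL.ne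
  obtain ⟨p1, p2⟩ := rep_zero e1
  obtain ⟨p3, p4⟩ := rep_zero e2
  have hdet : (a₁ * b₂ - a₂ * b₁) * (m * l - n * k) = 1 := by
    have q1 : m * a₁ + n * b₁ = 1 := by linarith
    have q4 : k * a₂ + l * b₂ = 1 := by linarith
    linear_combination (k * a₂ + l * b₂) * q1 + q4 - (m * a₂ + n * b₂) * p3
  have hunit : |a₁ * b₂ - a₂ * b₁| = 1 := Int.isUnit_iff_abs_eq.1 (IsUnit.of_mul_eq_one _ hdet)
  have him : ((starRingEnd ℂ) L.ω₁ * L.ω₂).im =
      Complex.normSq Ω * (((a₁ * b₂ - a₂ * b₁ : ℤ) : ℝ) * (Real.sqrt 7 / 2)) := by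
    rw [ha, hb, ha', hb', map_mul]
    have : (starRingEnd ℂ) Ω * (starRingEnd ℂ) ((a₁ : ℂ) + a₂ * al) * (Ω * ((b₁ : ℂ) + b₂ * al)) =
        ((Complex.normSq Ω : ℝ) : ℂ) *
          ((starRingEnd ℂ) ((a₁ : ℂ) + a₂ * al) * ((b₁ : ℂ) + b₂ * al)) := by
      rw [← Complex.mul_conj]
      ring
    rw [this, Complex.im_ofReal_mul]
    congr 1
    simp only [map_add, map_mul, Complex.add_im, Complex.mul_im, Complex.add_re,
      Complex.mul_re, Complex.intCast_re, Complex.intCast_im, Complex.conj_re, Complex.conj_im,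
      al_re, al_im]
    push_cast
    ring
  have habs : |((starRingEnd ℂ) L.ω₁ * L.ω₂).im| = Complex.normSq Ω * (Real.sqrt 7 / 2) := by
    rw [him, abs_mul, abs_mul, abs_of_nonneg (Complex.normSq_nonneg Ω)]
    have : |((a₁ * b₂ - a₂ * b₁ : ℤ) : ℝ)| = 1 := by
      rw [← Int.cast_abs, hunit]
      simp
    rw [this, one_mul, abs_of_nonneg (by positivity)]
  rw [habs, Complex.normSq_eq_norm_sq]
  ring

theorem perk_ : S_PERK := by
  intro x hx
  obtain ⟨L, Ω, hL⟩ := exists_LD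
  obtain ⟨u, hu⟩ := IsAlgClosed.exists_pow_nat_eq (1 + 4 * x) (n := 2) (by norm_num)
  have hu0 : u ≠ 0 := by
    rintro rfl
    apply hx
    rw [← hu]
    ring
  have hΩ : Ω ≠ 0 := hL.lat.ne
  have h0 : Ω / u ≠ 0 := div_ne_zero hΩ hu0
  set M := mkL al (Ω / u) qr.im h0 with hMdef
  have hM : IsLat M RR (Ω / u) := mkL_isLat qr h0
  have hs : ∀ z : ℂ, z ∈ M.lattice ↔ u * z ∈ L.lattice := by
    intro z
    rw [hM.mem, hL.lat.mem]
    constructor
    · rintro ⟨r, rfl⟩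
      exact ⟨r, by field_simp⟩
    · rintro ⟨r, hr⟩
      refine ⟨r, ?_⟩
      field_simp
      linear_combination hr
  have g2 : M.g₂ = (1 + 4 * x) ^ 2 * (35 / 4) := by
    rw [← hL.g2, PeriodPair.g₂, PeriodPair.g₂, scale_G hu0 hs, ← hu]
    ring
  have g3 : M.g₃ = (1 + 4 * x) ^ 3 * (49 / 8) := by
    rw [← hL.g3, PeriodPair.g₃, PeriodPair.g₃, scale_G hu0 hs, ← hu]
    ring
  have c4 : (EX ℂ x).c₄ = 105 * (1 + 4 * x) ^ 2 := by
    simp only [EX, WeierstrassCurve.c₄, WeierstrassCurve.b₂, WeierstrassCurve.b₄]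
    ring
  have c6 : (EX ℂ x).c₆ = 1323 * (1 + 4 * x) ^ 3 := by
    simp only [EX, WeierstrassCurve.c₆, WeierstrassCurve.b₂, WeierstrassCurve.b₄,
      WeierstrassCurve.b₆]
    ring
  have hper : IsPer (EX ℂ x) M := by
    refine ⟨?_, ?_⟩
    · rw [g2, c4]
      ring
    · rw [g3, c6]
      ring
  refine ⟨⟨M, hper⟩, fun Λ hΛ => ⟨L, Ω, hL, ?_⟩⟩
  have e2 : Λ.g₂ = M.g₂ := by
    have := hΛ.1.trans hper.1.symm
    exact mul_left_cancel₀ (by norm_num) this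
  have e3 : Λ.g₃ = M.g₃ := by
    have := hΛ.2.trans hper.2.symm
    exact mul_left_cancel₀ (by norm_num) this
  have hlat := Pool.Agent.Y577.LU.lat_unique Λ M e2 e3
  have hl : IsLat Λ RR (Ω / u) := ⟨h0, fun z => by rw [hlat]; exact hM.mem z⟩
  have ha := areaR hl
  rw [ha, norm_div, div_pow, ← norm_pow u, hu]
  ring

end Pool.Agent.T2h59.KE
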