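import Pool.Agent.T2h16.KE.Stm
import Pool.Agent.Y698.Pra

/-!
# Task VAL2 (project KE, helper59)
-/

set_option autoImplicit false
set_option linter.all false

open scoped Classical

namespace Pool.Agent.T2h59.KE

open Finset Filter
open Pool.Agent.Y698 Pool.Agent.T2h16.KE
open Pool.Agent.T2h16.KD (Cl)

theorem isF_uniq {S : Finset RR} {F G : ℂ → ℂ} (hF : IsF S F) (hG : IsF S G) : F = G := by
  have hF' : AnalyticOnNhd ℂ F Set.univ := fun z _ => hF.1.analyticAt z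
  have hG' : AnalyticOnNhd ℂ G Set.univ := fun z _ => hG.1.analyticAt z
  refine hF'.eq_of_eventuallyEq hG' (z₀ := 2) ?_
  have ho : IsOpen {z : ℂ | 3 / 2 < z.re} := isOpen_lt continuous_const Complex.continuous_re
  filter_upwards [ho.mem_nhds (by show (3 / 2 : ℝ) < (2 : ℂ).re; norm_num)] with z hz
  exact (hF.2 z hz).unique (hG.2 z hz)

/-- the places above two where `ω` is not a unit -/
theorem val2_al (hV : S_VALK) (hC : S_GCJ) {S : Finset RR} (hS : Cl S) {F : ℂ → ℂ} (hF : IsF S F)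
    {Γ : Type} [LinearOrderedCommGroupWithZero Γ] (v : Valuation ℂ Γ) {L : PeriodPair} {Ω : ℂ}
    (hL : LD L Ω) (hv : v al < 1) :
    (Pool.Agent.T2h16.KD.Gd S → v 4 * v (F 1 * (starRingEnd ℂ) (F 1) / (Ω * (starRingEnd ℂ) Ω)) =
      v 4 ^ S.card) ∧
    (¬ Pool.Agent.T2h16.KD.Gd S →
      v 4 * v (F 1 * (starRingEnd ℂ) (F 1) / (Ω * (starRingEnd ℂ) Ω)) < v 4 ^ S.card) := by
  obtain ⟨F₁, hF₁, h1⟩ := hV S hS
  obtain rfl := isF_uniq hF hF₁
  obtain ⟨hS', hcard, -, hgd, hcj⟩ := hC S hS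
  obtain ⟨F₂, hF₂, h2⟩ := hV _ hS'
  obtain rfl := isF_uniq (hcj F hF) hF₂
  obtain ⟨a1, a2⟩ := h1 Γ v L Ω hL hv
  obtain ⟨b1, b2⟩ := h2 Γ v L Ω hL hv
  have e : (starRingEnd ℂ) ((fun z => (starRingEnd ℂ) (F ((starRingEnd ℂ) z))) 1) = F 1 := by
    simp
  rw [hcard, e, hgd] at b1
  rw [hcard, e, hgd] at b2
  have hΩ : v ((starRingEnd ℂ) Ω) = v Ω := by
    rcases hL.conj_om with h | h
    · rw [h]
    · rw [h, Valuation.map_neg]
  have h4 : v 4 = v 2 * v 2 := by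
    rw [← map_mul]
    norm_num
  have h5 : v 4 * v (F 1 * (starRingEnd ℂ) (F 1) / (Ω * (starRingEnd ℂ) Ω)) =
      (v 2 * v ((starRingEnd ℂ) (F 1) / Ω)) * (v 2 * v (F 1 / Ω)) := by
    rw [h4, map_div₀, map_div₀, map_div₀, map_mul, map_mul, hΩ, mul_div_mul_comm,
      mul_mul_mul_comm, mul_comm (v 2 * _) (v 2 * _)]
  rw [h5, h4, mul_pow]
  refine ⟨fun h => ?_, fun h => ?_⟩
  · rw [a1 h, b1 h]
  · exact mul_lt_mul'' (a2 h) (b2 h) zero_le' zero_le'

theorem val2_ (hV : S_VALK) (hC : S_GCJ) : S_VAL2 := by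
  intro S hS
  obtain ⟨F₀, hF₀, -⟩ := hV S hS
  refine ⟨⟨F₀, hF₀⟩, ?_⟩
  intro F hF Γ _ v L Ω hL hv
  have h2 : v al * v bl = v 2 := by
    rw [← map_mul]
    congr 1
    unfold bl
    linear_combination -al_sq
  rcases lt_or_ge (v al) 1 with h | h
  · exact val2_al hV hC hS hF v hL h
  · have h3 : v bl < 1 := by
      by_contra h4
      rw [not_lt] at h4
      have h5 : 1 ≤ v al * v bl := one_le_mul h h4
      rw [h2] at h5
      exact absurd hv (not_lt.2 h5)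
    set v' : Valuation ℂ Γ := v.comap (starRingEnd ℂ) with hv'
    have hc : ∀ z, v' z = v ((starRingEnd ℂ) z) := fun z => rfl
    have h6 : v' al < 1 := by
      rw [hc, conj_al]
      exact h3
    have h7 := val2_al hV hC hS hF v' hL h6
    have h8 : v' 4 = v 4 := by
      rw [hc, Complex.conj_ofNat]
    have h9 : v' (F 1 * (starRingEnd ℂ) (F 1) / (Ω * (starRingEnd ℂ) Ω)) =
        v (F 1 * (starRingEnd ℂ) (F 1) / (Ω * (starRingEnd ℂ) Ω)) := by
      rw [hc, map_div₀, map_mul, map_mul, Complex.conj_conj, Complex.conj_conj,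
        mul_comm ((starRingEnd ℂ) (F 1)), mul_comm ((starRingEnd ℂ) Ω)]
    rw [h8, h9] at h7
    exact h7

end Pool.Agent.T2h59.KE
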